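import Mathlib

/-!
Cantor series expansions and normality of order `k`.
Sequences are indexed from `0`: `q n` is the base `q_{n+1}` and `E n` is the digit `E_{n+1}`.
-/

open Filter Topology

namespace Pool.Agent.MP_f007e6_nt

/-- A basic sequence: all terms are at least `2`. -/
def IsBasic (q : ℕ → ℕ) : Prop := ∀ n, 2 ≤ q n

/-- `E` is the digit sequence of the `Q`-Cantor series expansion of `x`. -/
def IsCantorExpansion (q : ℕ → ℕ) (x : ℝ) (E : ℕ → ℕ) : Prop :=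
  (∀ n, E n < q n) ∧ (∀ N, ∃ n, N ≤ n ∧ E n ≠ q n - 1) ∧
    HasSum (fun n => (E n : ℝ) / ∏ j ∈ Finset.range (n + 1), (q j : ℝ)) (x - (⌊x⌋ : ℝ))

/-- The number of occurrences of the block `B` starting at one of the first `n` digits. -/
def blockCount (E : ℕ → ℕ) {k : ℕ} (B : Fin k → ℕ) (n : ℕ) : ℕ :=
  ((Finset.range n).filter (fun i => ∀ s : Fin k, E (i + s) = B s)).card

/-- The sum `Q_n^{(k)}`. -/
noncomputable def qSum (q : ℕ → ℕ) (k n : ℕ) : ℝ :=
  ∑ j ∈ Finset.range n, 1 / ∏ s ∈ Finset.range k, (q (j + s) : ℝ)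

/-- `Q` is `k`-divergent for every `k ≥ 1`. -/
def FullyDivergent (q : ℕ → ℕ) : Prop :=
  ∀ k, 1 ≤ k → Tendsto (fun n => qSum q k n) atTop atTop

/-- `x` is `Q`-normal of order `k`. -/
def NormalOfOrder (q : ℕ → ℕ) (k : ℕ) (x : ℝ) : Prop :=
  ∃ E, IsCantorExpansion q x E ∧
    ∀ B : Fin k → ℕ, Tendsto (fun n => (blockCount E B n : ℝ) / qSum q k n) atTop (𝓝 1)

end Pool.Agent.MP_f007e6_nt
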